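import Pool.Agent.Y173.KU.Stm
import Pool.Agent.W735.PG.DESCJ

/-! Numerical dimension of products (project KU, helper173), part KU-DSC: the coefficients of a
section of `m K + j A` with respect to functions on the second factor are sections of `m K + j A'`
on the first factor. Adaptation of `Pool.Agent.W735.PG.DESCJ` (by helper710). -/

set_option autoImplicit false
set_option linter.all false

open FF IntermediateField Pool.Agent.W619.PQ Pool.Agent.W619.PL Pool.Agent.W619.TW
  Pool.Agent.W603.LV Pool.Agent.W619.Y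

namespace Pool.Agent.Y173.KU.Dsc

open Pool.Agent.W735.PG.DESCJ (der_sum frac expandFin exists_low)

theorem main (h1 : S_GAU) : S_DSC := by
  intro k L _ _ _ _ _ M F d f hP hM hF y hy z hz E hEF hEy hEM hEz S b0 hb0
  classical
  have hsup : M ⊔ F = ⊤ := hP.sup
  have hT : ∀ s : L, s ≠ 0 → ∃ T : Finset M, ∀ (u : Place k M) (U : Place k L),
      (∀ μ : M, U.ord (μ : L) = u.ord μ) → (∀ β : F, U.ord (β : L) = 0) →
      (∀ (r : ℕ) (β : Fin r → F) (μ : Fin r → M) (c : ℤ), LinearIndependent k β →
        Ge U c (∑ i, (β i : L) * (μ i : L)) → ∀ i, Ge u c (μ i)) →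
      ∃ s' ∈ T, s' ≠ 0 ∧ u.ord s' ≤ U.ord (b0 * s) :=
    fun s hs => exists_low hsup (mul_ne_zero hb0 hs)
  choose! T hT using hT
  refine ⟨S.biUnion T, ?_⟩
  intro m j ω hω r β μ hβ hsum i
  refine ⟨?_, ?_, fun u hu hf => hf.elim⟩
  · intro A D
    have h2 : (Matrix.of fun a b => (∑ c, A a c • D c) (y b)) =
        A * Matrix.of fun a b => D a (y b) := by
      ext a b
      rw [Matrix.of_apply, Matrix.mul_apply]
      simp only [Matrix.of_apply]
      congr 1
      exact der_sum (L := M) _ _ _ _
    show μ i * (Matrix.of fun a b => (∑ c, A a c • D c) (y b)).det ^ m = _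
    rw [h2, Matrix.det_mul]
    ring
  · intro u hu _ D hD
    obtain ⟨U, hU1, hU2, hU3, hU4, hU5⟩ := h1 k L M F d f hP hM hF u
    -- the derivations of `L`
    let D' : Fin (d + f) → Derivation k L L :=
      Fin.addCases (fun l => ∑ b, ((D l (y b) : M) : L) • E (Fin.castAdd f b))
        (fun l => E (Fin.natAdd d l))
    have hD'1 : ∀ l : Fin d, D' (Fin.castAdd f l) =
        ∑ b, ((D l (y b) : M) : L) • E (Fin.castAdd f b) := fun l => Fin.addCases_left l
    have hD'2 : ∀ l : Fin f, D' (Fin.natAdd d l) = E (Fin.natAdd d l) :=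
      fun l => Fin.addCases_right l
    let B : Matrix (Fin d ⊕ Fin f) (Fin d ⊕ Fin f) L :=
      Matrix.fromBlocks (Matrix.of fun a b => ((D a (y b) : M) : L)) 0 0 1
    let A : Matrix (Fin (d + f)) (Fin (d + f)) L :=
      Matrix.reindex finSumFinEquiv finSumFinEquiv B
    have hAB : ∀ a b : Fin d ⊕ Fin f, A (finSumFinEquiv a) (finSumFinEquiv b) = B a b := by
      intro a b
      simp [A]
    have hA : (fun a => ∑ c, A a c • E c) = D' := by
      funext a
      rw [← Equiv.sum_comp finSumFinEquiv (fun c => A a c • E c), Fintype.sum_sum_type]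
      obtain ⟨a', rfl⟩ := finSumFinEquiv.surjective a
      simp only [hAB]
      rcases a' with l | l
      · have e1 : D' (finSumFinEquiv (Sum.inl l)) =
            ∑ b, ((D l (y b) : M) : L) • E (Fin.castAdd f b) := hD'1 l
        rw [e1]
        simp [B]
      · have e1 : D' (finSumFinEquiv (Sum.inr l)) = E (Fin.natAdd d l) := hD'2 l
        rw [e1]
        simp [B, Matrix.one_apply]
    have hdet : A.det = (((Matrix.of fun a b => D a (y b)).det : M) : L) := by
      have h6 := (algebraMap M L).map_det (Matrix.of fun a b => D a (y b))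
      rw [Matrix.det_reindex_self, Matrix.det_fromBlocks_zero₂₁, Matrix.det_one, mul_one]
      refine Eq.trans ?_ h6.symm
      rfl
    have hωD : ω D' = (((Matrix.of fun a b => D a (y b)).det : M) : L) ^ m * ω E := by
      rw [← hdet, ← hω.1 A E, hA]
    -- the derivations preserve the valuation ring of `U`
    have hyM : ∀ (l : Fin d) (x : M), D' (Fin.castAdd f l) (x : L) = ((D l x : M) : L) := by
      intro l x
      refine der_comp (K := M) (L := L) (D l) (D' (Fin.castAdd f l)) y hy (fun c => ?_) x
      show D' (Fin.castAdd f l) ((y c : M) : L) = ((D l (y c) : M) : L)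
      rw [hD'1, der_sum]
      simp only [hEy]
      simp
    have hpres : ∀ a, Pres U (D' a) := by
      intro a
      refine Fin.addCases (fun l => ?_) (fun l => ?_) a
      · refine hU5 _ (fun x hx => ⟨D l x, hyM l x, hD l x hx⟩) (fun β => ⟨0, ?_⟩)
        rw [hD'1, der_sum]
        simp [hEF]
      · rw [hD'2]
        refine hU5 _ (fun x _ => ⟨0, ?_, u.reg_zero⟩) (fun β => ?_)
        · rw [hEM]; rfl
        · obtain ⟨E', hE'⟩ := exists_dual z hz l
          refine ⟨E' β, ?_⟩
          refine der_comp (K := F) (L := L) E' (E (Fin.natAdd d l)) z hz (fun c => ?_) β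
          show E (Fin.natAdd d l) ((z c : F) : L) = ((E' (z c) : F) : L)
          rw [hEz, hE']
          by_cases hlc : l = c
          · subst hlc
            simp
          · rw [if_neg hlc, if_neg (Ne.symm hlc)]
            rfl
    have hdom := hω.2.1 U (hU4 hu) (fun h => h) D' hpres
    -- multiply by `b0 ^ j`
    set δ : M := (Matrix.of fun a b => D a (y b)).det with hδ
    have hexp : b0 ^ j * ω D' = ∑ i, (β i : L) * ((μ i * δ ^ m : M) : L) := by
      rw [hωD]
      calc b0 ^ j * ((δ : L) ^ m * ω E) = (δ : L) ^ m * (b0 ^ j * ω E) := by ring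
        _ = _ := by
          rw [hsum, Finset.mul_sum]
          refine Finset.sum_congr rfl fun i _ => ?_
          push_cast; ring
    show Dom u (S.biUnion T) j (μ i * δ ^ m)
    rcases hdom with h0 | ⟨s, hs, hs0, hsU⟩
    · left
      by_contra hne
      have h9 := hU3 r β (fun i => μ i * δ ^ m) (u.ord (μ i * δ ^ m) + 1) hβ
        (by rw [← hexp, h0, mul_zero]; exact Ge.zero) i
      have := h9.resolve_left hne
      omega
    · obtain ⟨s', hs', hs'0, hle⟩ := hT s hs0 u U hU1 hU2 hU3
      have h9 : Ge U ((j : ℤ) * u.ord s') (b0 ^ j * ω D') := by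
        have h10 : Ge U ((j : ℤ) * U.ord s) (ω D') := Or.inr hsU
        have h11 : Ge U ((j : ℤ) * U.ord b0) (b0 ^ j) := Or.inr (by rw [U.ord_pow])
        refine (h11.mul h10).mono ?_
        rw [U.ord_mul hb0 hs0] at hle
        rw [← mul_add]
        exact mul_le_mul_of_nonneg_left hle (by positivity)
      rw [hexp] at h9
      rcases hU3 r β (fun i => μ i * δ ^ m) _ hβ h9 i with h12 | h12
      · left; exact h12
      · right
        exact ⟨s', Finset.mem_biUnion.2 ⟨s, hs, hs'⟩, hs'0, h12⟩

end Pool.Agent.Y173.KU.Dsc
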