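import Pool.Agent.W619.Y.Stm6
import Pool.Agent.W619.TW.Cur

/-! Numerical dimension of products of two varieties: definitions and statements of the parts. -/

set_option autoImplicit false
set_option linter.overlappingInstances false
set_option linter.unusedSectionVars false

open FF IntermediateField Pool.Agent.W619.PQ Pool.Agent.W619.PL Pool.Agent.W619.TW
  Pool.Agent.W603.LV Pool.Agent.W619.Y

namespace Pool.Agent.Y173.KU

/-- `L` is the function field of the product of the varieties with function fields `M` and `F`. -/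
structure Prd {k L : Type} [Field k] [Field L] [Algebra k L] (M F : IntermediateField k L) :
    Prop where
  ld : M.LinearDisjoint F
  sup : M ⊔ F = ⊤

/-- (KU-GAU) The Gauss extension of a place of `M` to the product. -/
def S_GAU : Prop := ∀ (k L : Type) [Field k] [CharZero k] [IsAlgClosed k] [Field L] [Algebra k L]
  (M F : IntermediateField k L) (d f : ℕ), Prd M F → Algebra.trdeg k M = d →
    Algebra.trdeg k F = f →
    ∀ u : Place k M, ∃ U : Place k L, (∀ μ : M, U.ord (μ : L) = u.ord μ) ∧
      (∀ β : F, U.ord (β : L) = 0) ∧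
      (∀ (r : ℕ) (β : Fin r → F) (μ : Fin r → M) (c : ℤ), LinearIndependent k β →
        Ge U c (∑ i, (β i : L) * (μ i : L)) → ∀ i, Ge u c (μ i)) ∧
      (IsDivisorial u d → IsDivisorial U (d + f)) ∧
      (∀ D : Derivation k L L, (∀ μ : M, u.Reg μ → ∃ μ' : M, D (μ : L) = (μ' : L) ∧ u.Reg μ') →
        (∀ β : F, ∃ β' : F, D (β : L) = (β' : L)) → Pres U D)

/-- (KU-DSC) The coefficients of a section of `m K + j A` with respect to functions on the second
factor are sections of `m K + j A'` on the first factor. -/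
def S_DSC : Prop := ∀ (k L : Type) [Field k] [CharZero k] [IsAlgClosed k] [Field L] [Algebra k L]
  (M F : IntermediateField k L) (d f : ℕ), Prd M F → Algebra.trdeg k M = d →
    Algebra.trdeg k F = f →
    ∀ (y : Fin d → M), IsTranscendenceBasis k y → ∀ (z : Fin f → F), IsTranscendenceBasis k z →
    ∀ (E : Fin (d + f) → Derivation k L L),
      (∀ l : Fin d, ∀ β : F, E (Fin.castAdd f l) (β : L) = 0) →
      (∀ l j : Fin d, E (Fin.castAdd f l) (y j : L) = if l = j then 1 else 0) →
      (∀ l : Fin f, ∀ μ : M, E (Fin.natAdd d l) (μ : L) = 0) →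
      (∀ l j : Fin f, E (Fin.natAdd d l) (z j : L) = if l = j then 1 else 0) →
    ∀ (S : Finset L) (b0 : L), b0 ≠ 0 → ∃ S' : Finset M, ∀ (m j : ℕ)
      (ω : (Fin (d + f) → Derivation k L L) → L), IsSec k L (d + f) (fun _ => False) S m j ω →
      ∀ (r : ℕ) (β : Fin r → F) (μ : Fin r → M), LinearIndependent k β →
        b0 ^ j * ω E = ∑ i, (β i : L) * (μ i : L) →
        ∀ i, IsSec k M d (fun _ => False) S' m j
          (fun D => μ i * (Matrix.of fun a b => D a (y b)).det ^ m)

/-- (KU-TRI) An element of `L` which is integral over the polynomials in the `z` with coefficients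
in `M` is in the ring generated by `M` and `F`. -/
def S_TRI : Prop := ∀ (k L : Type) [Field k] [CharZero k] [IsAlgClosed k] [Field L] [Algebra k L]
  (M F : IntermediateField k L) (f : ℕ) (z : Fin f → F), Prd M F → IsTranscendenceBasis k z →
    FiniteDimensional (IntermediateField.adjoin k (Set.range z)) F →
    ∀ x : L, IsIntegral (Algebra.adjoin M (Set.range fun l => (z l : L))) x → x ∈ RR M F

/-- (KU-RANK) An expression with the smallest number of terms. -/
def S_RANK : Prop := ∀ (k L : Type) [Field k] [Field L] [Algebra k L]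
  (M F : IntermediateField k L), ∀ x ∈ RR M F, ∃ (r : ℕ) (β : Fin r → F) (μ : Fin r → M),
    LinearIndependent k β ∧ LinearIndependent k μ ∧ x = ∑ i, (β i : L) * (μ i : L)

/-- (KU-CNT) Counting. -/
def S_CNT : Prop := ∀ (k L : Type) [Field k] [Field L] [Algebra k L]
  (M F : IntermediateField k L) (A : Set F) (B : Set M) (a b : ℕ),
    (∀ (r : ℕ) (β : Fin r → F), LinearIndependent k β → (∀ i, β i ∈ A) → r ≤ a) →
    (∀ (r : ℕ) (μ : Fin r → M), LinearIndependent k μ → (∀ i, μ i ∈ B) → r ≤ b) →
    ∀ (N : ℕ) (x : Fin N → L), LinearIndependent k x →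
      (∀ l, ∃ (r : ℕ) (β : Fin r → F) (μ : Fin r → M), (∀ i, β i ∈ A) ∧ (∀ i, μ i ∈ B) ∧
        x l = ∑ i, (β i : L) * (μ i : L)) → N ≤ a * b

end Pool.Agent.Y173.KU
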