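import Pool.Agent.Y173.QA.Hart
import Pool.Agent.Y173.KU.Stm

/-! The horizontal places of a product: pluricanonical forms have coefficients in the ring generated
by the two factors. -/

set_option autoImplicit false
set_option linter.overlappingInstances false
set_option linter.unusedSectionVars false

open FF IntermediateField Pool.Agent.W619.PQ Pool.Agent.W619.PL Pool.Agent.W619.TW
  Pool.Agent.W603.LV Pool.Agent.W619.Y Pool.Agent.TH122.AB MvPolynomial Pool.Agent.Y173.QA

namespace Pool.Agent.Y173.KU

section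

variable {k : Type*} [Field k] {a r : ℕ}

/-- the polynomial involves only the last `r` variables -/
def Vert' (p : MvPolynomial (Fin (a + r)) k) : Prop :=
  ∃ q : MvPolynomial (Fin r) k, p = rename (Fin.natAdd a) q

theorem Vert'.mul {p q : MvPolynomial (Fin (a + r)) k} (hp : Vert' p) (hq : Vert' q) :
    Vert' (p * q) := by
  obtain ⟨p', rfl⟩ := hp
  obtain ⟨q', rfl⟩ := hq
  exact ⟨p' * q', by rw [map_mul]⟩

theorem vert'_C (c : k) : Vert' (C c : MvPolynomial (Fin (a + r)) k) := ⟨C c, by rw [rename_C]⟩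

theorem degreeOf_vert' {p : MvPolynomial (Fin (a + r)) k} (hp : Vert' p) (l : Fin a) :
    degreeOf (Fin.castAdd r l) p = 0 := by
  classical
  obtain ⟨q, rfl⟩ := hp
  apply degreeOf_notMem
  intro h
  have h1 := vars_rename (Fin.natAdd a) q h
  rw [Finset.mem_image] at h1
  obtain ⟨j, -, hj⟩ := h1
  have h2 := congrArg Fin.val hj
  rw [Fin.val_castAdd, Fin.val_natAdd] at h2
  have := l.2
  omega

theorem exists_of_not_vert' {p : MvPolynomial (Fin (a + r)) k} (hp : ¬ Vert' p) :
    ∃ l : Fin a, degreeOf (Fin.castAdd r l) p ≠ 0 := by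
  classical
  by_contra hcon
  push Not at hcon
  apply hp
  obtain ⟨q, hq⟩ := exists_rename_eq_of_vars_subset_range p (Fin.natAdd a)
    (Fin.natAdd_injective r a) (by
      intro i hi
      refine Fin.addCases (fun j hj => ?_) (fun l _ => ⟨l, rfl⟩) i hi
      exact absurd (hcon j) (mem_vars_of hj))
  exact ⟨q, hq.symm⟩

theorem not_dvd_vert' {p q : MvPolynomial (Fin (a + r)) k} {l : Fin a}
    (hp : degreeOf (Fin.castAdd r l) p ≠ 0) (hq : Vert' q) (hq0 : q ≠ 0) : ¬ p ∣ q :=
  not_dvd_of_degreeOf hp (degreeOf_vert' hq l) hq0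

/-- the part of a polynomial with irreducible factors in a class -/
theorem exists_part {σ : Type*} (V : MvPolynomial σ k → Prop)
    (hmul : ∀ p q, V p → V q → V (p * q)) (hC : ∀ c : k, V (C c))
    {Q : MvPolynomial σ k} (hQ : Q ≠ 0) :
    ∃ r0 Q' : MvPolynomial σ k, V r0 ∧ Q = r0 * Q' ∧
      ∀ p, Irreducible p → V p → ¬ p ∣ Q' := by
  classical
  induction Q using WfDvdMonoid.induction_on_irreducible with
  | zero => exact absurd rfl hQ
  | unit u hu =>
    refine ⟨1, u, ?_, (one_mul u).symm, fun p hp _ hpu => hp.not_isUnit ?_⟩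
    · have h1 := hC 1
      rwa [C_1] at h1
    · exact isUnit_of_dvd_unit hpu hu
  | mul c i hc hi ih =>
    obtain ⟨r0, Q', h1, h2, h3⟩ := ih hc
    by_cases hv : V i
    · exact ⟨i * r0, Q', hmul _ _ hv h1, by rw [h2, mul_assoc], h3⟩
    · refine ⟨r0, i * Q', h1, by rw [h2]; ring, fun p hp hpv hdvd => ?_⟩
      rcases hp.prime.dvd_or_dvd hdvd with h4 | h4
      · apply hv
        have h5 : Associated p i := hp.associated_of_dvd hi h4
        obtain ⟨u, hu⟩ := h5
        obtain ⟨c', -, hc'⟩ := MvPolynomial.isUnit_iff_eq_C_of_isReduced.1 u.isUnit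
        rw [← hu, hc']
        exact hmul _ _ hpv (hC c')
      · exact h3 p hp hpv h4

end

variable {k : Type} [Field k] [CharZero k] {L : Type} [Field L] [Algebra k L]

theorem aeval_append_nat {a r : ℕ} (t : Fin a → L) (x : Fin r → L)
    (q : MvPolynomial (Fin r) k) :
    aeval (Fin.append t x) (rename (Fin.natAdd a) q) = aeval x q := by
  rw [aeval_rename]
  have h1 : Fin.append t x ∘ Fin.natAdd a = x := by
    funext j
    simp
  rw [h1]

/-- **The denominators.** -/
theorem mult_of_hor {a r : ℕ} {t : Fin a → L} {x : Fin r → L}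
    (hZ : IsTranscendenceBasis k (Fin.append t x))
    (hfd : FiniteDimensional (IntermediateField.adjoin k (Set.range (Fin.append t x))) L) {g : L}
    (hg : ∀ p : MvPolynomial (Fin (a + r)) k, Irreducible p → ¬ Vert p → ¬ Vert' p →
      ∀ P : Place k L, Adic (Fin.append t x) p P → P.Reg g) :
    ∃ (q0 : MvPolynomial (Fin a) k) (q1 : MvPolynomial (Fin r) k), q0 ≠ 0 ∧ q1 ≠ 0 ∧
      IsIntegral (Algebra.adjoin k (Set.range (Fin.append t x)))
        (aeval t q0 * aeval x q1 * g) := by
  classical
  obtain ⟨R, hR0, hR⟩ := exists_mult hZ g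
  obtain ⟨r0, R', hr0, hRR, hR'⟩ := exists_part (Vert (a := a) (r := r))
    (fun p q hp hq => hp.mul hq) vert_C hR0
  have hr00 : r0 ≠ 0 := by
    rintro rfl
    exact hR0 (by rw [hRR, zero_mul])
  have hR'0 : R' ≠ 0 := by
    rintro rfl
    exact hR0 (by rw [hRR, mul_zero])
  obtain ⟨r1, R2, hr1, hRR2, hR2⟩ := exists_part (Vert' (a := a) (r := r))
    (fun p q hp hq => hp.mul hq) vert'_C hR'0
  have hr10 : r1 ≠ 0 := by
    rintro rfl
    exact hR'0 (by rw [hRR2, zero_mul])
  have hR20 : R2 ≠ 0 := by
    rintro rfl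
    exact hR'0 (by rw [hRR2, mul_zero])
  have hne : ∀ f : MvPolynomial (Fin (a + r)) k, f ≠ 0 → aeval (Fin.append t x) f ≠ 0 :=
    fun f hf h0 => hf ((injective_iff_map_eq_zero _).1 hZ.1 f h0)
  have h1 : IsIntegral (Algebra.adjoin k (Set.range (Fin.append t x)))
      (aeval (Fin.append t x) (r0 * r1) * g) := by
    refine int_of_reg hZ hfd fun p hp P hP => ?_
    by_cases hv : Vert p ∨ Vert' p
    · have h2 : P.Reg (aeval (Fin.append t x) R * g) := reg_of_int (adic_reg hP) hR
      have h3 : P.ord (aeval (Fin.append t x) R2) = 0 := by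
        refine (hP R2 hR20).2.2 ?_
        rcases hv with hv | hv
        · intro hd
          exact hR' p hp hv (by rw [hRR2]; exact hd.mul_left _)
        · exact hR2 p hp hv
      have h4 : aeval (Fin.append t x) R * g =
          aeval (Fin.append t x) R2 * (aeval (Fin.append t x) (r0 * r1) * g) := by
        rw [hRR, hRR2, map_mul, map_mul, map_mul]
        ring
      rw [h4] at h2
      have h5 : Ge P (0 + 0) (aeval (Fin.append t x) R2 *
        (aeval (Fin.append t x) (r0 * r1) * g)) := h2
      exact Ge.of_mul' (hne R2 hR20) h3 h5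
    · push Not at hv
      exact P.reg_mul (adic_reg hP _) (hg p hp hv.1 hv.2 P hP)
  obtain ⟨q0, hq0⟩ := hr0
  obtain ⟨q1, hq1⟩ := hr1
  refine ⟨q0, q1, ?_, ?_, ?_⟩
  · rintro rfl
    exact hr00 (by rw [hq0, map_zero])
  · rintro rfl
    exact hr10 (by rw [hq1, map_zero])
  · rw [hq0, hq1, map_mul, aeval_append_vert, aeval_append_nat] at h1
    exact h1

theorem ord_vert' {a r : ℕ} {t : Fin a → L} {x : Fin r → L}
    {p : MvPolynomial (Fin (a + r)) k} {l0 : Fin a} (hl0 : degreeOf (Fin.castAdd r l0) p ≠ 0)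
    {P : Place k L} (hP : Adic (Fin.append t x) p P) (q : MvPolynomial (Fin r) k) (hq : q ≠ 0) :
    P.ord (aeval x q) = 0 := by
  rw [← aeval_append_nat t x]
  have h0 : rename (Fin.natAdd a) q ≠ 0 :=
    (map_ne_zero_iff _ (rename_injective _ (Fin.natAdd_injective r a))).2 hq
  exact (hP _ h0).2.2 (not_dvd_vert' hl0 ⟨q, rfl⟩ h0)

/-- a place which is trivial on the polynomials in a transcendence basis of a subfield is trivial on
the subfield -/
theorem ord_sub {a : ℕ} {M : IntermediateField k L} {y : Fin a → M}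
    (hy : IsTranscendenceBasis k y) {P : Place k L}
    (hq : ∀ q : MvPolynomial (Fin a) k, q ≠ 0 → P.ord (aeval (fun l => (y l : L)) q) = 0)
    (μ : M) : P.ord (μ : L) = 0 := by
  have hbase : ∀ z ∈ IntermediateField.adjoin k (Set.range fun l => (y l : L)), P.ord z = 0 :=
    fun z hz => ord_base hq hz
  have halg : ∀ μ : M, P.Reg (μ : L) := by
    intro μ
    have h1 : IsAlgebraic (IntermediateField.adjoin k (Set.range y)) μ := by
      have h2 := hy.isAlgebraic_field
      exact h2.isAlgebraic μ
    have h2 : IsIntegral (IntermediateField.adjoin k (Set.range y)) (μ : L) :=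
      h1.isIntegral.map (IsScalarTower.toAlgHom (IntermediateField.adjoin k (Set.range y)) M L)
    refine P.reg_of_isIntegral (A := IntermediateField.adjoin k (Set.range y)) (fun c => ?_) h2
    refine Or.inr (hbase _ ?_).ge
    obtain ⟨c, hc⟩ := c
    change (c : L) ∈ _
    induction hc using IntermediateField.adjoin_induction with
    | mem z hz =>
      obtain ⟨l, rfl⟩ := hz
      exact IntermediateField.subset_adjoin k _ ⟨l, rfl⟩
    | algebraMap c =>
      exact (IntermediateField.adjoin k (Set.range fun l => (y l : L))).algebraMap_mem c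
    | add y z _ _ hy hz => exact IntermediateField.add_mem _ hy hz
    | inv z _ hz => exact IntermediateField.inv_mem _ hz
    | mul y z _ _ hy hz => exact IntermediateField.mul_mem _ hy hz
  by_cases h0 : μ = 0
  · rw [h0]
    exact P.ord_zero
  · have h0' : (μ : L) ≠ 0 := fun h => h0 (Subtype.ext h)
    have h1 := (halg μ).resolve_left h0'
    have h2 := (halg μ⁻¹).resolve_left (by
      push_cast
      exact inv_ne_zero h0')
    push_cast at h2
    rw [P.ord_inv] at h2
    omega

variable {M F : IntermediateField k L}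

theorem RR_reg {P : Place k L} (hM : ∀ μ : M, P.ord (μ : L) = 0)
    (hF : ∀ β : F, P.ord (β : L) = 0) {x : L} (hx : x ∈ RR M F) : P.Reg x := by
  unfold RR at hx
  induction hx using Algebra.adjoin_induction with
  | mem z hz => exact Or.inr (hM ⟨z, hz⟩).ge
  | algebraMap c => exact Or.inr (hF c).ge
  | add y z _ _ hy hz => exact P.reg_add hy hz
  | mul y z _ _ hy hz => exact P.reg_mul hy hz

theorem RR_der {D : Derivation k L L} (hM : ∀ μ : M, D (μ : L) ∈ RR M F)
    (hF : ∀ β : F, D (β : L) ∈ RR M F) {x : L} (hx : x ∈ RR M F) : D x ∈ RR M F := by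
  have h : x ∈ RR M F ∧ D x ∈ RR M F := by
    unfold RR at hx
    induction hx using Algebra.adjoin_induction with
    | mem z hz => exact ⟨RR.left hz, hM ⟨z, hz⟩⟩
    | algebraMap c => exact ⟨RR.right c.2, hF c⟩
    | add y z _ _ hy hz =>
      rw [map_add]
      exact ⟨add_mem hy.1 hz.1, add_mem hy.2 hz.2⟩
    | mul y z _ _ hy hz =>
      rw [D.leibniz, smul_eq_mul, smul_eq_mul]
      exact ⟨mul_mem hy.1 hz.1, add_mem (mul_mem hy.1 hz.2) (mul_mem hz.1 hy.2)⟩
  exact h.2

/-- **The horizontal places.** -/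
theorem hor_pres {m f : ℕ} (htr : Algebra.trdeg k L = (m + f : ℕ))
    (hfin : ∀ y : Fin (m + f) → L, IsTranscendenceBasis k y →
      FiniteDimensional (IntermediateField.adjoin k (Set.range y)) L)
    (hfrac : ∀ x : L, ∃ a ∈ RR M F, ∃ b ∈ RR M F, b ≠ 0 ∧ x = a / b)
    {y : Fin m → M} (hy : IsTranscendenceBasis k y) {z : Fin f → F}
    (hz : IsTranscendenceBasis k z)
    (hZ : IsTranscendenceBasis k (Fin.append (fun l => (y l : L)) (fun l => (z l : L))))
    {p : MvPolynomial (Fin (m + f)) k} (hp : Irreducible p) (hv : ¬ Vert p) (hv' : ¬ Vert' p)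
    {P : Place k L} (hP : Adic (Fin.append (fun l => (y l : L)) (fun l => (z l : L))) p P) :
    IsDivisorial P (m + f) ∧ (∀ μ : M, P.ord (μ : L) = 0) ∧ (∀ β : F, P.ord (β : L) = 0) ∧
      ∀ D : Derivation k L L, (∀ μ : M, D (μ : L) ∈ RR M F) → (∀ β : F, D (β : L) ∈ RR M F) →
        Pres P D := by
  classical
  obtain ⟨l0, hl0⟩ := exists_of_not_vert hv
  obtain ⟨l1, hl1⟩ := exists_of_not_vert' hv'
  have hM : ∀ μ : M, P.ord (μ : L) = 0 := ord_sub hy (ord_vert hl0 hP)
  have hF : ∀ β : F, P.ord (β : L) = 0 := ord_sub hz (ord_vert' hl1 hP)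
  refine ⟨?_, hM, hF, ?_⟩
  · obtain ⟨f', rfl⟩ : ∃ f', f = f' + 1 := Nat.exists_eq_succ_of_ne_zero (by
      rintro rfl
      exact l0.elim0)
    let b0 : Fin ((m + f') + 1) := Fin.natAdd m l0
    let Z : Fin ((m + f') + 1) → L :=
      (Fin.append (fun l => (y l : L)) (fun l => (z l : L)) : Fin (m + (f' + 1)) → L)
    let y' : Fin (m + f') → L := fun j => Z (b0.succAbove j)
    refine ⟨y', fun q hq => ?_⟩
    have h0 : rename b0.succAbove q ≠ 0 :=
      (map_ne_zero_iff _ (rename_injective _ Fin.succAbove_right_injective)).2 hq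
    have h1 : aeval Z (rename b0.succAbove q) = aeval y' q := by
      rw [aeval_rename]
      rfl
    have h2 := (hP (rename b0.succAbove q) h0).2.2 (not_dvd_succAbove (b := b0) hl0 hq)
    change P.ord (aeval Z (rename b0.succAbove q)) = 0 at h2
    rw [h1] at h2
    refine ⟨?_, h2⟩
    change aeval y' q ≠ 0
    rw [← h1]
    intro h3
    exact h0 ((injective_iff_map_eq_zero _).1 hZ.1 _ h3)
  · intro D hDM hDF
    -- the place below
    let Z : Fin (m + f) → L := Fin.append (fun l => (y l : L)) (fun l => (z l : L))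
    let K : IntermediateField k L := IntermediateField.adjoin k (Set.range Z)
    have hfd : FiniteDimensional K L := hfin Z hZ
    let X' : Fin (m + f) → K := fun j => ⟨Z j, IntermediateField.subset_adjoin k _ ⟨j, rfl⟩⟩
    have hX' : Gens (k := k) X' := gens_of (Z := Z) hZ.1 (E := K) rfl fun j => rfl
    have halg : Algebra.IsAlgebraic K L := inferInstance
    obtain ⟨e, v, hPv⟩ := Pool.Agent.W73.PG.PULL.exists_over' (K := K) P
    have hae : ∀ f : MvPolynomial (Fin (m + f)) k, algebraMap K L (aeval X' f) = aeval Z f :=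
      fun f => (MvPolynomial.aeval_algebraMap_apply L X' f).symm
    have he : (0 : ℤ) < e := by exact_mod_cast hPv.1
    have hvv : ∀ f : MvPolynomial (Fin (m + f)) k, f ≠ 0 →
        0 ≤ v.ord (aeval X' f) ∧ (v.ord (aeval X' f) = 0 ↔ ¬ p ∣ f) := by
      intro f hf
      obtain ⟨h1, h2⟩ := hP f hf
      change 0 ≤ P.ord (aeval Z f) at h1
      change P.ord (aeval Z f) = 0 ↔ _ at h2
      rw [← hae, hPv.2] at h1 h2
      refine ⟨nonneg_of_mul_nonneg_right h1 he, ?_⟩
      rw [← h2]
      constructor
      · intro h3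
        rw [h3, mul_zero]
      · intro h3
        rcases mul_eq_zero.1 h3 with h4 | h4
        · omega
        · exact h4
    let A : Subring L := Subring.closure ((algebraMap K L) '' {z | v.Reg z} ∪ (RR M F : Set L))
    have hOA : ∀ z : K, v.Reg z → algebraMap K L z ∈ A := fun z hz =>
      Subring.subset_closure (Or.inl ⟨z, hz, rfl⟩)
    have hBA : ∀ b ∈ RR M F, b ∈ A := fun b hb => Subring.subset_closure (Or.inr hb)
    have hpolyA : ∀ f : MvPolynomial (Fin (m + f)) k, aeval Z f ∈ A := by
      intro f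
      rw [← hae]
      refine hOA _ ?_
      by_cases hf : f = 0
      · rw [hf, map_zero]; exact v.reg_zero
      · exact Or.inr (hvv f hf).1
    have hDZ : ∀ j, D (Z j) ∈ A := by
      intro j
      refine Fin.addCases (fun j => ?_) (fun l => ?_) j
      · change D (Fin.append (fun l => (y l : L)) (fun l => (z l : L)) (Fin.castAdd f j)) ∈ A
        rw [Fin.append_left]
        exact hBA _ (hDM _)
      · change D (Fin.append (fun l => (y l : L)) (fun l => (z l : L)) (Fin.natAdd m l)) ∈ A
        rw [Fin.append_right]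
        exact hBA _ (hDF _)
    have hDpoly := der_poly D A hpolyA hDZ
    refine sei hPv D A hOA ?_ ?_ ?_
    · intro z hz
      induction hz using Subring.closure_induction with
      | mem z hz =>
        rcases hz with ⟨z, hz, rfl⟩ | hz
        · exact hPv.reg.2 hz
        · exact RR_reg hM hF hz
      | zero => exact P.reg_zero
      | one => exact P.reg_one
      | add y z _ _ hy hz => exact P.reg_add hy hz
      | neg z _ hz =>
        have : Ge P 0 z := hz
        exact this.neg
      | mul y z _ _ hy hz => exact P.reg_mul hy hz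
    · intro z hz
      induction hz using Subring.closure_induction with
      | mem z hz =>
        rcases hz with ⟨z, hz, rfl⟩ | hz
        · obtain ⟨f, g, hg, hpg, rfl⟩ := frac_of_reg hX' hp hvv hz
          have hgL : aeval Z g ≠ 0 := by
            rw [← hae]
            exact (map_ne_zero _).2 (hX'.ne hg)
          have hginv : (aeval Z g)⁻¹ ∈ A := by
            rw [← hae, ← map_inv₀]
            apply hOA
            right
            rw [v.ord_inv, (hvv g hg).2.2 hpg]
            simp
          rw [map_div₀, hae, hae, div_eq_mul_inv, D.leibniz, Derivation.leibniz_inv]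
          simp only [smul_eq_mul]
          refine A.add_mem (A.mul_mem (hpolyA f) (A.mul_mem (A.neg_mem (A.pow_mem hginv 2))
            (hDpoly g))) (A.mul_mem hginv (hDpoly f))
        · exact hBA _ (RR_der hDM hDF hz)
      | zero => rw [map_zero]; exact A.zero_mem
      | one => rw [Derivation.map_one_eq_zero]; exact A.zero_mem
      | add y z _ _ hy hz => rw [map_add]; exact A.add_mem hy hz
      | neg z _ hz => rw [map_neg]; exact A.neg_mem hz
      | mul y z hy' hz' hy hz =>
        rw [D.leibniz, smul_eq_mul, smul_eq_mul]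
        exact A.add_mem (A.mul_mem hy' hz) (A.mul_mem hz' hy)
    · intro z
      obtain ⟨f, hf, g, hg, hg0, hfg⟩ := hfrac z
      refine ⟨g, hBA g hg, hg0, ?_⟩
      rw [hfg, mul_div_cancel₀ _ hg0]
      exact hBA f hf

end Pool.Agent.Y173.KU
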