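import Pool.Agent.Y173.KU.Sec

/-! Numerical dimension and pseudo-effectivity of products. -/

set_option autoImplicit false
set_option linter.overlappingInstances false
set_option linter.unusedSectionVars false

open FF IntermediateField Pool.Agent.W619.PQ Pool.Agent.W619.PL Pool.Agent.W619.TW
  Pool.Agent.W603.LV Pool.Agent.W619.Y Pool.Agent.TH122.AB MvPolynomial Pool.Agent.Y173.QA

namespace Pool.Agent.Y173.KU

variable {k : Type} [Field k] [CharZero k] {L : Type} [Field L] [Algebra k L]
  {M F : IntermediateField k L}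

/-- a derivation which vanishes on a transcendence basis of a subfield vanishes on it -/
theorem der_zero_sub {m : ℕ} {y : Fin m → M} (hy : IsTranscendenceBasis k y)
    {D : Derivation k L L} (hD : ∀ l, D (y l : L) = 0) (μ : M) : D (μ : L) = 0 := by
  obtain ⟨E, hE⟩ := exists_duals hy
  have h1 := Pool.Agent.W308.PG.YLOC.expand y E hy hE D μ
  change D (μ : L) = _ at h1
  rw [h1]
  refine Finset.sum_eq_zero fun c _ => ?_
  change _ * D (y c : L) = 0
  rw [hD, mul_zero]

/-- exchange of the factors -/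
theorem sec_flip {m f N j : ℕ} {S : Finset L} {ω : (Fin (m + f) → Derivation k L L) → L}
    (hω : IsSec k L (m + f) (fun _ => False) S N j ω) :
    IsSec k L (f + m) (fun _ => False) S N j
      (fun D => ω fun i : Fin (m + f) => D (finAddFlip i)) := by
  classical
  refine ⟨?_, ?_, fun v _ hf => hf.elim⟩
  · intro A D
    have h1 := hω.1 (A.submatrix finAddFlip finAddFlip) (fun i => D (finAddFlip i))
    rw [Matrix.det_submatrix_equiv_self] at h1
    rw [← h1]
    change (ω fun i : Fin (m + f) => ∑ j, A (finAddFlip i) j • D j) = _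
    congr 1
    funext i
    simp only [Matrix.submatrix_apply]
    exact (Equiv.sum_comp (finAddFlip : Fin (m + f) ≃ Fin (f + m))
      (fun j => A (finAddFlip i) j • D j)).symm
  · intro v hv _ D hD
    have hv' : IsDivisorial v (m + f) := by rw [add_comm]; exact hv
    exact hω.2.1 v hv' (fun h => h) _ fun l => hD _

/-- forms with linearly independent coefficients -/
theorem indep_forms {m r N : ℕ} {y : Fin m → M} (hy : IsTranscendenceBasis k y) {μ : Fin r → M}
    (hμ : LinearIndependent k μ) :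
    LinearIndependent k (fun (i : Fin r) (D : Fin m → Derivation k M M) =>
      μ i * (Matrix.of fun a b => D a (y b)).det ^ N) := by
  classical
  obtain ⟨E, hE⟩ := exists_duals hy
  rw [Fintype.linearIndependent_iff] at hμ ⊢
  intro c hc
  apply hμ c
  have h1 := congrFun hc E
  rw [Finset.sum_apply] at h1
  have h2 : (Matrix.of fun a b => E a (y b)) = (1 : Matrix (Fin m) (Fin m) M) := by
    ext a b
    rw [Matrix.of_apply, hE, Matrix.one_apply]
  change _ = (0 : M) at h1
  rw [← h1]
  refine Finset.sum_congr rfl fun i _ => ?_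
  rw [Pi.smul_apply, h2, Matrix.det_one, one_pow, mul_one]

section

variable [IsAlgClosed k] [Algebra.EssFiniteType k L] [Algebra.EssFiniteType k M]
  [Algebra.EssFiniteType k F]

theorem core (hTRI : S_TRI) (hDSC : S_DSC) (hRANK : S_RANK) {m f : ℕ} (hsup : M ⊔ F = ⊤)
    (htr : Algebra.trdeg k L = (m + f : ℕ)) (hm : Algebra.trdeg k M = m)
    (hf : Algebra.trdeg k F = f) {y : Fin m → M} (hy : IsTranscendenceBasis k y)
    {z : Fin f → F} (hz : IsTranscendenceBasis k z) {E : Fin (m + f) → Derivation k L L}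
    (hE : ∀ i j, E i (Fin.append (fun l => (y l : L)) (fun l => (z l : L)) j) =
      if i = j then 1 else 0) (S : Finset L) :
    ∃ (b0 : L) (S1 : Finset M) (S2 : Finset F), b0 ≠ 0 ∧ ∀ (N j : ℕ)
      (ω : (Fin (m + f) → Derivation k L L) → L), IsSec k L (m + f) (fun _ => False) S N j ω →
      ∃ (r : ℕ) (β : Fin r → F) (μ : Fin r → M), LinearIndependent k β ∧ LinearIndependent k μ ∧
        b0 ^ j * ω E = ∑ i, (β i : L) * (μ i : L) ∧
        (∀ i, IsSec k M m (fun _ => False) S1 N j
          (fun D => μ i * (Matrix.of fun a b => D a (y b)).det ^ N)) ∧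
        (∀ i, IsSec k F f (fun _ => False) S2 N j
          (fun D => β i * (Matrix.of fun a b => D a (z b)).det ^ N)) := by
  classical
  have h := prd_of_trdeg hsup htr hm hf
  have hEy : ∀ (l : Fin m) (j : Fin m), E (Fin.castAdd f l) (y j : L) =
      if l = j then 1 else 0 := by
    intro l j
    have h1 := hE (Fin.castAdd f l) (Fin.castAdd f j)
    rw [Fin.append_left] at h1
    rw [h1]
    by_cases hlj : l = j
    · rw [if_pos hlj, if_pos (by rw [hlj])]
    · rw [if_neg hlj, if_neg fun h => hlj (Fin.castAdd_injective m f h)]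
  have hEz : ∀ (l : Fin f) (j : Fin f), E (Fin.natAdd m l) (z j : L) =
      if l = j then 1 else 0 := by
    intro l j
    have h1 := hE (Fin.natAdd m l) (Fin.natAdd m j)
    rw [Fin.append_right] at h1
    rw [h1]
    by_cases hlj : l = j
    · rw [if_pos hlj, if_pos (by rw [hlj])]
    · rw [if_neg hlj, if_neg fun h => hlj (Fin.natAdd_injective f m h)]
  have hEyz : ∀ (l : Fin m) (j : Fin f), E (Fin.castAdd f l) (z j : L) = 0 := by
    intro l j
    have h1 := hE (Fin.castAdd f l) (Fin.natAdd m j)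
    rw [Fin.append_right, if_neg] at h1
    · exact h1
    · intro h2
      have h3 := congrArg Fin.val h2
      rw [Fin.val_castAdd, Fin.val_natAdd] at h3
      have := l.2
      omega
  have hEzy : ∀ (l : Fin f) (j : Fin m), E (Fin.natAdd m l) (y j : L) = 0 := by
    intro l j
    have h1 := hE (Fin.natAdd m l) (Fin.castAdd f j)
    rw [Fin.append_left, if_neg] at h1
    · exact h1
    · intro h2
      have h3 := congrArg Fin.val h2
      rw [Fin.val_castAdd, Fin.val_natAdd] at h3
      have := j.2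
      omega
  have hEF0 : ∀ (l : Fin m) (β : F), E (Fin.castAdd f l) (β : L) = 0 := fun l β =>
    der_zero_sub hz (fun j => hEyz l j) β
  have hEM0 : ∀ (l : Fin f) (μ : M), E (Fin.natAdd m l) (μ : L) = 0 := fun l μ =>
    der_zero_sub hy (fun j => hEzy l j) μ
  have hEM : ∀ i (μ : M), E i (μ : L) ∈ RR M F := by
    intro i μ
    refine Fin.addCases (fun l => ?_) (fun l => ?_) i
    · refine RR.left (der_mem hy (fun j => ?_) μ)
      rw [hEy]
      split_ifs
      · exact M.one_mem
      · exact M.zero_mem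
    · rw [hEM0]; exact zero_mem _
  have hEF : ∀ i (β : F), E i (β : L) ∈ RR M F := by
    intro i β
    refine Fin.addCases (fun l => ?_) (fun l => ?_) i
    · rw [hEF0]; exact zero_mem _
    · refine RR.right (der_mem hz (fun j => ?_) β)
      rw [hEz]
      split_ifs
      · exact F.one_mem
      · exact F.zero_mem
  obtain ⟨b0, hb0, hb⟩ := sec_RR hTRI h htr hy hz hEM hEF S
  obtain ⟨S1, hS1⟩ := hDSC k L M F m f h hm hf y hy z hz E hEF0 hEy hEM0 hEz S b0 hb0
  let E' : Fin (f + m) → Derivation k L L := fun i => E (finAddFlip i)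
  obtain ⟨S2, hS2⟩ := hDSC k L F M f m h.symm hf hm z hz y hy E'
    (fun l β => by
      change E (finAddFlip (Fin.castAdd m l)) _ = 0
      rw [finAddFlip_apply_castAdd]
      exact hEM0 l β)
    (fun l j => by
      change E (finAddFlip (Fin.castAdd m l)) _ = _
      rw [finAddFlip_apply_castAdd]
      exact hEz l j)
    (fun l μ => by
      change E (finAddFlip (Fin.natAdd f l)) _ = 0
      rw [finAddFlip_apply_natAdd]
      exact hEF0 l μ)
    (fun l j => by
      change E (finAddFlip (Fin.natAdd f l)) _ = _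
      rw [finAddFlip_apply_natAdd]
      exact hEy l j) S b0 hb0
  refine ⟨b0, S1, S2, hb0, fun N j ω hω => ?_⟩
  obtain ⟨r, β, μ, hβ, hμ, hx⟩ := hRANK k L M F _ (hb N j ω hω)
  refine ⟨r, β, μ, hβ, hμ, hx, hS1 N j ω hω r β μ hβ hx, ?_⟩
  refine hS2 N j _ (sec_flip hω) r μ β hμ ?_
  have h1 : (fun i : Fin (m + f) => E' (finAddFlip i)) = E := by
    funext i
    change E (finAddFlip (finAddFlip i)) = E i
    congr 1
    refine Fin.addCases (fun l => ?_) (fun l => ?_) i
    · rw [finAddFlip_apply_castAdd, finAddFlip_apply_natAdd]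
    · rw [finAddFlip_apply_natAdd, finAddFlip_apply_castAdd]
  change b0 ^ j * ω (fun i : Fin (m + f) => E' (finAddFlip i)) = _
  rw [h1, hx]
  exact Finset.sum_congr rfl fun i _ => mul_comm _ _

/-- **The numerical dimension of a product.** -/
theorem kun_num (hTRI : S_TRI) (hDSC : S_DSC) (hRANK : S_RANK) (hCNT : S_CNT) {m f : ℕ}
    (hsup : M ⊔ F = ⊤) (htr : Algebra.trdeg k L = (m + f : ℕ)) (hm : Algebra.trdeg k M = m)
    (hf : Algebra.trdeg k F = f) {a b : ℕ} (ha : NumLe k M m (fun _ => False) a)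
    (hb : NumLe k F f (fun _ => False) b) : NumLe k L (m + f) (fun _ => False) (a + b) := by
  classical
  obtain ⟨y, hy⟩ : ∃ y : Fin m → M, IsTranscendenceBasis k y := exists_tb hm
  obtain ⟨z, hz⟩ : ∃ z : Fin f → F, IsTranscendenceBasis k z := exists_tb hf
  have hZ := append_basis hsup htr hy hz
  obtain ⟨E, hE⟩ := exists_duals hZ
  intro S
  obtain ⟨b0, S1, S2, hb0, hc⟩ := core hTRI hDSC hRANK hsup htr hm hf hy hz hE S
  obtain ⟨C1, hC1⟩ := ha S1
  obtain ⟨C2, hC2⟩ := hb S2
  refine ⟨C2 * C1, fun N R hN hind => ?_⟩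
  obtain ⟨ω, hlin, hsec⟩ := hind
  have hx := lin_frame (Φ := E) (fun D => ⟨_, Pool.Agent.W308.PG.YLOC.expandK _ E hZ hE D⟩) hlin
    (fun l => (hsec l).1) (pow_ne_zero 1 hb0)
  have h1 := hCNT k L M F {β | IsSec k F f (fun _ => False) S2 N 1
      (fun D => β * (Matrix.of fun a b => D a (z b)).det ^ N)}
    {μ | IsSec k M m (fun _ => False) S1 N 1
      (fun D => μ * (Matrix.of fun a b => D a (y b)).det ^ N)} (C2 * N ^ b) (C1 * N ^ a)
    (fun r β hβ hA => hC2 N r hN ⟨_, indep_forms hz hβ, hA⟩)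
    (fun r μ hμ hB => hC1 N r hN ⟨_, indep_forms hy hμ, hB⟩) R _ hx (fun l => by
      obtain ⟨r, β, μ, -, -, h2, h3, h4⟩ := hc N 1 (ω l) (hsec l)
      exact ⟨r, β, μ, h4, h3, h2⟩)
  refine h1.trans (le_of_eq ?_)
  rw [pow_add]
  ring

/-- **Pseudo-effectivity on a product.** -/
theorem kun_psef (hTRI : S_TRI) (hDSC : S_DSC) (hRANK : S_RANK) {m f : ℕ}
    (hsup : M ⊔ F = ⊤) (htr : Algebra.trdeg k L = (m + f : ℕ)) (hm : Algebra.trdeg k M = m)
    (hf : Algebra.trdeg k F = f) (h : IsPsef k L (m + f) (fun _ => False)) :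
    IsPsef k M m (fun _ => False) ∧ IsPsef k F f (fun _ => False) := by
  classical
  obtain ⟨y, hy⟩ : ∃ y : Fin m → M, IsTranscendenceBasis k y := exists_tb hm
  obtain ⟨z, hz⟩ : ∃ z : Fin f → F, IsTranscendenceBasis k z := exists_tb hf
  have hZ := append_basis hsup htr hy hz
  obtain ⟨E, hE⟩ := exists_duals hZ
  obtain ⟨S, hS⟩ := h
  obtain ⟨b0, S1, S2, hb0, hc⟩ := core hTRI hDSC hRANK hsup htr hm hf hy hz hE S
  obtain ⟨EM, hEM⟩ := exists_duals hy
  obtain ⟨EF, hEF⟩ := exists_duals hz
  have key : ∀ N : ℕ, ∃ j : ℕ, 1 ≤ j ∧ (∃ μ : M, μ ≠ 0 ∧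
      IsSec k M m (fun _ => False) S1 (j * N) j
        (fun D => μ * (Matrix.of fun a b => D a (y b)).det ^ (j * N))) ∧
      ∃ β : F, β ≠ 0 ∧ IsSec k F f (fun _ => False) S2 (j * N) j
        (fun D => β * (Matrix.of fun a b => D a (z b)).det ^ (j * N)) := by
    intro N
    obtain ⟨j, hj, ω, hω, D, hD⟩ := hS N
    obtain ⟨r, β, μ, hβ, hμ, hx, h1, h2⟩ := hc (j * N) j ω hω
    have hωE : ω E ≠ 0 := by
      intro h0
      apply hD
      have h3 := Pool.Agent.W308.PG.YLOC.expandK _ E hZ hE
      have h4 : D = fun i => ∑ l, D i (Fin.append (fun l => (y l : L)) (fun l => (z l : L)) l) •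
          E l := funext fun i => h3 (D i)
      rw [h4]
      have h5 := hω.1 (Matrix.of fun i l => D i (Fin.append (fun l => (y l : L))
        (fun l => (z l : L)) l)) E
      rw [h0, mul_zero] at h5
      exact h5
    have hr : 0 < r := by
      rcases Nat.eq_zero_or_pos r with h0 | h0
      · subst h0
        rw [Finset.univ_eq_empty, Finset.sum_empty] at hx
        exact absurd hx (mul_ne_zero (pow_ne_zero _ hb0) hωE)
      · exact h0
    exact ⟨j, hj, ⟨μ ⟨0, hr⟩, hμ.ne_zero _, h1 _⟩, β ⟨0, hr⟩, hβ.ne_zero _, h2 _⟩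
  refine ⟨⟨S1, fun N => ?_⟩, ⟨S2, fun N => ?_⟩⟩
  · obtain ⟨j, hj, ⟨μ, hμ, hs⟩, -⟩ := key N
    refine ⟨j, hj, _, hs, EM, ?_⟩
    have h2 : (Matrix.of fun a b => EM a (y b)) = (1 : Matrix (Fin m) (Fin m) M) := by
      ext a b
      rw [Matrix.of_apply, hEM, Matrix.one_apply]
    rw [h2, Matrix.det_one, one_pow, mul_one]
    exact hμ
  · obtain ⟨j, hj, -, β, hβ, hs⟩ := key N
    refine ⟨j, hj, _, hs, EF, ?_⟩
    have h2 : (Matrix.of fun a b => EF a (z b)) = (1 : Matrix (Fin f) (Fin f) F) := by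
      ext a b
      rw [Matrix.of_apply, hEF, Matrix.one_apply]
    rw [h2, Matrix.det_one, one_pow, mul_one]
    exact hβ

end

end Pool.Agent.Y173.KU
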