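import Pool.Agent.Y173.KU.Stm

/-! # Tensor rank and counting (KU-RANK, KU-CNT; by helper949) -/

set_option autoImplicit false

namespace Pool.Agent.Y173.KU.Rank

section lin

variable {k V W X : Type} [Field k] [AddCommGroup V] [Module k V] [AddCommGroup W] [Module k W]
  [AddCommGroup X] [Module k X]

/-- an expression with dependent first factors can be shortened -/
theorem shorten (φ : V →ₗ[k] W →ₗ[k] X) {r : ℕ} (β : Fin r → V) (μ : Fin r → W)
    (h : ¬ LinearIndependent k β) : ∃ (r' : ℕ) (β' : Fin r' → V) (μ' : Fin r' → W), r' < r ∧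
      ∑ i, φ (β' i) (μ' i) = ∑ i, φ (β i) (μ i) := by
  rw [Fintype.not_linearIndependent_iff] at h
  obtain ⟨c, hc, i0, hi0⟩ := h
  obtain ⟨n, rfl⟩ : ∃ n, r = n + 1 := ⟨r - 1, by have := i0.isLt; omega⟩
  refine ⟨n, fun j => β (i0.succAbove j), fun j =>
    μ (i0.succAbove j) - ((c i0)⁻¹ * c (i0.succAbove j)) • μ i0, by omega, ?_⟩
  rw [Fin.sum_univ_succAbove (fun i => φ (β i) (μ i)) i0]
  rw [Fin.sum_univ_succAbove (fun i => c i • β i) i0] at hc
  have h1 : β i0 = -∑ j, ((c i0)⁻¹ * c (i0.succAbove j)) • β (i0.succAbove j) := by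
    have h2 := congrArg (fun v => (c i0)⁻¹ • v) hc
    simp only [smul_add, smul_zero, smul_smul, inv_mul_cancel₀ hi0, one_smul, Finset.smul_sum] at h2
    exact eq_neg_of_add_eq_zero_left h2
  have h3 : φ (β i0) (μ i0) = -∑ j, ((c i0)⁻¹ * c (i0.succAbove j)) •
      φ (β (i0.succAbove j)) (μ i0) := by
    rw [h1, map_neg, map_sum, LinearMap.neg_apply, LinearMap.sum_apply]
    congr 1
    refine Finset.sum_congr rfl fun j _ => ?_
    rw [map_smul, LinearMap.smul_apply]
  rw [h3]
  simp only [map_sub, map_smul, Finset.sum_sub_distrib]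
  abel

/-- a shortest expression has independent factors -/
theorem shortest (φ : V →ₗ[k] W →ₗ[k] X) {r : ℕ} (β : Fin r → V) (μ : Fin r → W) :
    ∃ (r' : ℕ) (β' : Fin r' → V) (μ' : Fin r' → W), LinearIndependent k β' ∧
      LinearIndependent k μ' ∧ ∑ i, φ (β' i) (μ' i) = ∑ i, φ (β i) (μ i) := by
  induction r using Nat.strong_induction_on with
  | _ r ih =>
    by_cases h1 : LinearIndependent k β
    · by_cases h2 : LinearIndependent k μ
      · exact ⟨r, β, μ, h1, h2, rfl⟩
      · obtain ⟨r', μ', β', hr, h3⟩ := shorten φ.flip μ β h2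
        obtain ⟨r2, β2, μ2, g1, g2, g3⟩ := ih r' hr β' μ'
        refine ⟨r2, β2, μ2, g1, g2, ?_⟩
        rw [g3]
        exact h3
    · obtain ⟨r', β', μ', hr, h3⟩ := shorten φ β μ h1
      obtain ⟨r2, β2, μ2, g1, g2, g3⟩ := ih r' hr β' μ'
      exact ⟨r2, β2, μ2, g1, g2, g3.trans h3⟩

/-- a finite basis among the elements of a set -/
theorem fin_basis {A : Set V} {a : ℕ}
    (h : ∀ (r : ℕ) (β : Fin r → V), LinearIndependent k β → (∀ i, β i ∈ A) → r ≤ a) :
    ∃ s : Finset V, s.card ≤ a ∧ A ⊆ Submodule.span k (s : Set V) := by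
  classical
  obtain ⟨b, hbA, hsp, hli⟩ := exists_linearIndependent k A
  have key : ∀ t : Finset V, (t : Set V) ⊆ b → t.card ≤ a := by
    intro t ht
    let f : t → b := fun x => ⟨x, ht x.2⟩
    have hf : Function.Injective f := fun x y hxy =>
      Subtype.ext (congrArg (fun z : b => (z : V)) hxy)
    have h1 : LinearIndependent k (fun x : t => (x : V)) := hli.comp f hf
    have h2 : LinearIndependent k (fun i : Fin t.card => ((t.equivFin.symm i : t) : V)) :=
      h1.comp _ t.equivFin.symm.injective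
    exact h _ _ h2 fun i => hbA (ht (t.equivFin.symm i).2)
  have hfin : b.Finite := by
    by_contra hinf
    obtain ⟨t, ht, hc⟩ := Set.Infinite.exists_subset_card_eq hinf (a + 1)
    have := key t ht
    omega
  refine ⟨hfin.toFinset, key _ (by simp), ?_⟩
  rw [Set.Finite.coe_toFinset, hsp]
  exact Submodule.subset_span

/-- counting -/
theorem count (φ : V →ₗ[k] W →ₗ[k] X) {A : Set V} {B : Set W} {a b : ℕ}
    (hA : ∀ (r : ℕ) (β : Fin r → V), LinearIndependent k β → (∀ i, β i ∈ A) → r ≤ a)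
    (hB : ∀ (r : ℕ) (μ : Fin r → W), LinearIndependent k μ → (∀ i, μ i ∈ B) → r ≤ b)
    {N : ℕ} {x : Fin N → X} (hx : LinearIndependent k x)
    (h : ∀ l, ∃ (r : ℕ) (β : Fin r → V) (μ : Fin r → W), (∀ i, β i ∈ A) ∧ (∀ i, μ i ∈ B) ∧
      x l = ∑ i, φ (β i) (μ i)) : N ≤ a * b := by
  classical
  obtain ⟨s, hs, hsA⟩ := fin_basis hA
  obtain ⟨t, ht, htB⟩ := fin_basis hB
  set w : Finset X := Finset.image₂ (fun v u => φ v u) s t with hw
  have hwc : w.card ≤ a * b :=
    (Finset.card_image₂_le _ _ _).trans (Nat.mul_le_mul hs ht)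
  have hspan : Set.range x ≤ Submodule.span k (w : Set X) := by
    rintro _ ⟨l, rfl⟩
    obtain ⟨r, β, μ, h1, h2, h3⟩ := h l
    rw [h3]
    refine Submodule.sum_mem _ fun i _ => ?_
    have h4 := Submodule.apply_mem_map₂ φ (hsA (h1 i)) (htB (h2 i))
    rw [Submodule.map₂_span_span] at h4
    rw [hw, Finset.coe_image₂]
    exact h4
  have h5 := linearIndependent_le_span' x hx (w : Set X) hspan
  rw [Cardinal.mk_fin] at h5
  have h6 : N ≤ Fintype.card (w : Set X) := by exact_mod_cast h5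
  have h7 : Fintype.card (w : Set X) = w.card := by simp
  rw [h7] at h6
  exact h6.trans hwc

end lin

section main

variable {k L : Type} [Field k] [Field L] [Algebra k L] (M F : IntermediateField k L)

/-- the multiplication -/
noncomputable def mu : F →ₗ[k] M →ₗ[k] L :=
  (LinearMap.mul k L).compl₁₂ F.val.toLinearMap M.val.toLinearMap

lemma mu_apply (β : F) (μ : M) : mu M F β μ = (β : L) * (μ : L) := rfl

open Pool.Agent.W619.TW in
theorem mainR : S_RANK := by
  intro k L _ _ _ M F x hx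
  obtain ⟨s, β, hs⟩ := RR.expand hx
  obtain ⟨r, β', μ', h1, h2, h3⟩ := shortest (mu M F) (fun i => β (s.equivFin.symm i))
    (fun i => Module.Basis.ofVectorSpace k M (s.equivFin.symm i))
  refine ⟨r, β', μ', h1, h2, ?_⟩
  simp only [mu_apply] at h3
  rw [h3, hs, ← Finset.sum_coe_sort s, ← Equiv.sum_comp s.equivFin.symm]
  exact Finset.sum_congr rfl fun i _ => mul_comm _ _

theorem mainC : S_CNT := by
  intro k L _ _ _ M F A B a b hA hB N x hx h
  refine count (mu M F) hA hB hx ?_
  intro l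
  obtain ⟨r, β, μ, h1, h2, h3⟩ := h l
  exact ⟨r, β, μ, h1, h2, h3⟩

end main

end Pool.Agent.Y173.KU.Rank
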