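import Mathlib
import Pool.Agent.Y173.KU.Stm

/-!
# The ring generated by the two fields is integrally closed (`S_TRI`)
-/

set_option autoImplicit false
set_option linter.unusedSectionVars false

open IntermediateField Module

namespace Pool.Agent.Y173.KU.Tri

/-! ### Bases of two extensions -/

section tr

variable {K0 F K1 L : Type} [Field K0] [Field F] [Field K1] [Field L] [Algebra K0 F] [Algebra K1 L]
  (i0 : K0 →+* K1) (j : F →+* L) (hc : ∀ a, algebraMap K1 L (i0 a) = j (algebraMap K0 F a))
  {ι : Type} [Fintype ι] [DecidableEq ι] (b0 : Basis ι K0 F) (b1 : Basis ι K1 L)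
  (hb : ∀ i, b1 i = j (b0 i))

include hc hb

theorem repr_eq (y : F) (i : ι) : b1.repr (j y) i = i0 (b0.repr y i) := by
  have h1 : j y = ∑ i, i0 (b0.repr y i) • b1 i := by
    conv_lhs => rw [← b0.sum_repr y]
    rw [map_sum]
    refine Finset.sum_congr rfl fun i _ => ?_
    rw [Algebra.smul_def, map_mul, hb, Algebra.smul_def, hc]
  rw [h1, b1.repr_sum_self]

theorem trace_eq (p : F) : Algebra.trace K1 L (j p) = i0 (Algebra.trace K0 F p) := by
  rw [Algebra.trace_eq_matrix_trace b1, Algebra.trace_eq_matrix_trace b0, Matrix.trace,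
    Matrix.trace, map_sum]
  refine Finset.sum_congr rfl fun i _ => ?_
  rw [Matrix.diag_apply, Matrix.diag_apply, Algebra.leftMulMatrix_eq_repr_mul,
    Algebra.leftMulMatrix_eq_repr_mul, hb, ← map_mul]
  exact repr_eq i0 j hc b0 b1 hb _ i

theorem dual_eq [FiniteDimensional K0 F] [FiniteDimensional K1 L] [Algebra.IsSeparable K0 F]
    [Algebra.IsSeparable K1 L] (i : ι) : b1.traceDual i = j (b0.traceDual i) := by
  have h : (b1.traceDual : ι → L) = fun i => j (b0.traceDual i) := by
    rw [Module.Basis.traceDual_eq_iff]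
    intro i l
    rw [Algebra.traceForm_apply, hb, ← map_mul, trace_eq i0 j hc b0 b1 hb,
      Module.Basis.trace_traceDual_mul]
    split_ifs <;> simp
  exact congrFun h i

end tr

/-! ### Linear independence -/

section li

variable {k L : Type} [Field k] [Field L] [Algebra k L] {M F : IntermediateField k L}

/-- the monomials -/
noncomputable def zm {A : Type} [CommRing A] {f : ℕ} (z : Fin f → A) (s : Fin f →₀ ℕ) : A :=
  s.prod fun i e => z i ^ e

theorem aeval_eq {R A : Type} [CommRing R] [CommRing A] [Algebra R A] {f : ℕ} (z : Fin f → A)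
    (p : MvPolynomial (Fin f) R) (t : Finset (Fin f →₀ ℕ)) (ht : p.support ⊆ t) :
    MvPolynomial.aeval z p = ∑ m ∈ t, MvPolynomial.coeff m p • zm z m := by
  conv_lhs => rw [p.as_sum]
  rw [map_sum, ← Finset.sum_subset ht]
  · refine Finset.sum_congr rfl fun m _ => ?_
    rw [MvPolynomial.aeval_monomial, Algebra.smul_def]
    rfl
  · intro m _ hm
    rw [MvPolynomial.notMem_support_iff.1 hm, zero_smul]

theorem li_zm {f : ℕ} {z : Fin f → F} (hz : AlgebraicIndependent k z) :
    LinearIndependent k (fun s => zm (fun l => (⟨z l, subset_adjoin k _ ⟨l, rfl⟩⟩ :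
      IntermediateField.adjoin k (Set.range z))) s) := by
  have h1 := (MvPolynomial.basisMonomials (Fin f) k).linearIndependent.map'
    (MvPolynomial.aeval (R := k) z).toLinearMap (LinearMap.ker_eq_bot.2 hz)
  have h2 : (IntermediateField.adjoin k (Set.range z)).val.toLinearMap ∘
      (fun s => zm (fun l => (⟨z l, subset_adjoin k _ ⟨l, rfl⟩⟩ :
      IntermediateField.adjoin k (Set.range z))) s) =
      (MvPolynomial.aeval (R := k) z).toLinearMap ∘ (MvPolynomial.basisMonomials (Fin f) k) := by
    funext s
    simp only [Function.comp_apply, MvPolynomial.coe_basisMonomials, AlgHom.toLinearMap_apply,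
      MvPolynomial.aeval_monomial, map_one, one_mul, zm]
    rw [map_finsuppProd]
    rfl
  refine LinearIndependent.of_comp (IntermediateField.adjoin k (Set.range z)).val.toLinearMap ?_
  rw [h2]
  exact h1

theorem li_prod (hd : M.LinearDisjoint F) {f : ℕ} {z : Fin f → F}
    (hz : AlgebraicIndependent k z) {ι : Type} {b : ι → F}
    (hb : LinearIndependent (IntermediateField.adjoin k (Set.range z)) b) :
    LinearIndependent M (fun q : (Fin f →₀ ℕ) × ι => zm (fun l => (z l : L)) q.1 * (b q.2 : L)) := by
  have h1 := linearIndependent_smul (li_zm hz) hb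
  have h2 := hd.linearIndependent_right h1
  convert h2 using 1
  funext q
  simp only [Function.comp_apply, Algebra.smul_def, map_mul]
  congr 1
  unfold zm
  have h3 : (algebraMap (IntermediateField.adjoin k (Set.range z)) F)
      (q.1.prod fun i e => (⟨z i, subset_adjoin k _ ⟨i, rfl⟩⟩ :
        IntermediateField.adjoin k (Set.range z)) ^ e) = q.1.prod fun i e => z i ^ e := by
    rw [map_finsuppProd]
    rfl
  rw [h3, map_finsuppProd]
  rfl

/-- the ring of the polynomials in `z` over `M` -/
abbrev RZ (M : IntermediateField k L) {f : ℕ} (z : Fin f → F) : Subalgebra M L :=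
  Algebra.adjoin M (Set.range fun l => (z l : L))

theorem mem_RZ {f : ℕ} {z : Fin f → F} (x : RZ M z) :
    ∃ p : MvPolynomial (Fin f) M, MvPolynomial.aeval (fun l => (z l : L)) p = (x : L) := by
  obtain ⟨x, hx⟩ := x
  change ∃ p : MvPolynomial (Fin f) M, MvPolynomial.aeval (fun l => (z l : L)) p = x
  unfold RZ at hx
  rw [Algebra.adjoin_range_eq_range_aeval] at hx
  exact hx

theorem li_RZ (hd : M.LinearDisjoint F) {f : ℕ} {z : Fin f → F}
    (hz : AlgebraicIndependent k z) {ι : Type} {b : ι → F}
    (hb : LinearIndependent (IntermediateField.adjoin k (Set.range z)) b) :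
    LinearIndependent (RZ M z) (fun i => (b i : L)) := by
  classical
  have h := linearIndependent_iff'.1 (li_prod hd hz hb)
  rw [linearIndependent_iff']
  intro s g hg i hi
  choose p hp using fun i => mem_RZ (g i)
  obtain ⟨t, ht⟩ : ∃ t : Finset (Fin f →₀ ℕ), ∀ i ∈ s, (p i).support ⊆ t :=
    ⟨s.biUnion fun i => (p i).support, fun i hi => Finset.subset_biUnion_of_mem
      (fun i => (p i).support) hi⟩
  have h1 : ∑ q ∈ t ×ˢ s, MvPolynomial.coeff q.1 (p q.2) •
      (zm (fun l => (z l : L)) q.1 * (b q.2 : L)) = 0 := by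
    rw [Finset.sum_product_right, ← hg]
    refine Finset.sum_congr rfl fun i hi => ?_
    rw [Subalgebra.smul_def, ← hp i, aeval_eq _ _ t (ht i hi), smul_eq_mul, Finset.sum_mul]
    refine Finset.sum_congr rfl fun m _ => ?_
    rw [smul_mul_assoc]
  have h2 := h _ _ h1
  have h3 : p i = 0 := by
    refine MvPolynomial.ext _ _ fun m => ?_
    rw [MvPolynomial.coeff_zero]
    by_cases hm : m ∈ t
    · exact h2 (m, i) (Finset.mk_mem_product hm hi)
    · exact MvPolynomial.notMem_support_iff.1 fun h => hm (ht i hi h)
  apply Subtype.ext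
  rw [← hp i, h3, map_zero]
  rfl

theorem algInd (hd : M.LinearDisjoint F) {f : ℕ} {z : Fin f → F}
    (hz : AlgebraicIndependent k z) : AlgebraicIndependent M (fun l => (z l : L)) := by
  have hb : LinearIndependent (IntermediateField.adjoin k (Set.range z))
      (fun _ : Unit => (1 : F)) := by
    rw [linearIndependent_unique_iff]
    exact one_ne_zero
  have h := linearIndependent_iff'.1 (li_prod hd hz hb)
  change Function.Injective _
  rw [injective_iff_map_eq_zero]
  intro p hp
  have h1 : ∑ q ∈ p.support ×ˢ (Finset.univ : Finset Unit), MvPolynomial.coeff q.1 p •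
      (zm (fun l => (z l : L)) q.1 * ((1 : F) : L)) = 0 := by
    rw [Finset.sum_product]
    have h2 := aeval_eq (fun l => (z l : L)) p p.support (Finset.Subset.refl _)
    rw [h2] at hp
    rw [← hp]
    refine Finset.sum_congr rfl fun m _ => ?_
    simp
  have h2 := h _ _ h1
  refine MvPolynomial.ext _ _ fun m => ?_
  rw [MvPolynomial.coeff_zero]
  by_cases hm : m ∈ p.support
  · exact h2 (m, ()) (Finset.mk_mem_product hm (Finset.mem_univ _))
  · exact MvPolynomial.notMem_support_iff.1 hm

theorem intClosed (hd : M.LinearDisjoint F) {f : ℕ} {z : Fin f → F}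
    (hz : AlgebraicIndependent k z) : IsIntegrallyClosed (RZ M z) :=
  IsIntegrallyClosed.of_equiv (algInd hd hz).aevalEquiv.toRingEquiv

/-- the field of the rational functions in `z` over `M` -/
abbrev KZ (M : IntermediateField k L) {f : ℕ} (z : Fin f → F) : IntermediateField M L :=
  IntermediateField.adjoin M (Set.range fun l => (z l : L))

theorem mem_KZ {f : ℕ} {z : Fin f → F} (x : IntermediateField.adjoin k (Set.range z)) :
    ((x : F) : L) ∈ KZ M z := by
  obtain ⟨x, hx⟩ := x
  change (x : L) ∈ KZ M z
  induction hx using IntermediateField.adjoin_induction with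
  | mem x hx =>
    obtain ⟨l, rfl⟩ := hx
    exact subset_adjoin M _ ⟨l, rfl⟩
  | algebraMap x =>
    have h : ((algebraMap k F x : F) : L) = algebraMap M L (algebraMap k M x) := rfl
    rw [h]
    exact (KZ M z).algebraMap_mem _
  | add x y _ _ hx hy => exact (KZ M z).add_mem hx hy
  | inv x _ hx => exact (KZ M z).inv_mem hx
  | mul x y _ _ hx hy => exact (KZ M z).mul_mem hx hy

theorem mem_RZ' {f : ℕ} {z : Fin f → F} (x : Algebra.adjoin k (Set.range z)) :
    ((x : F) : L) ∈ RZ M z := by
  obtain ⟨x, hx⟩ := x
  change (x : L) ∈ RZ M z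
  induction hx using Algebra.adjoin_induction with
  | mem x hx =>
    obtain ⟨l, rfl⟩ := hx
    exact Algebra.subset_adjoin ⟨l, rfl⟩
  | algebraMap x =>
    have h : ((algebraMap k F x : F) : L) = algebraMap M L (algebraMap k M x) := rfl
    rw [h]
    exact (RZ M z).algebraMap_mem _
  | add x y _ _ hx hy => exact (RZ M z).add_mem hx hy
  | mul x y _ _ hx hy => exact (RZ M z).mul_mem hx hy

/-- the inclusion of the fields of rational functions -/
noncomputable def i0 (M : IntermediateField k L) {f : ℕ} (z : Fin f → F) :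
    IntermediateField.adjoin k (Set.range z) →+* KZ M z :=
  ((algebraMap F L).comp (algebraMap (IntermediateField.adjoin k (Set.range z)) F)).codRestrict
    (KZ M z) fun x => mem_KZ x

/-- the inclusion of the rings of polynomials -/
noncomputable def j0 (M : IntermediateField k L) {f : ℕ} (z : Fin f → F) :
    Algebra.adjoin k (Set.range z) →+* RZ M z :=
  ((algebraMap F L).comp (algebraMap (Algebra.adjoin k (Set.range z)) F)).codRestrict
    (RZ M z) fun x => mem_RZ' x

theorem span_KZ (hs : M ⊔ F = ⊤) {f : ℕ} {z : Fin f → F}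
    [FiniteDimensional (IntermediateField.adjoin k (Set.range z)) F] {ι : Type}
    (b0 : Basis ι (IntermediateField.adjoin k (Set.range z)) F) :
    ⊤ ≤ Submodule.span (KZ M z) (Set.range fun i => (b0 i : L)) := by
  have hst : IsScalarTower k (KZ M z) L := IsScalarTower.of_algebraMap_eq fun x => rfl
  have hE : IntermediateField.adjoin (KZ M z) (F : Set L) = ⊤ := by
    rw [eq_top_iff]
    intro x _
    have h1 : M ⊔ F ≤ (IntermediateField.adjoin (KZ M z) (F : Set L)).restrictScalars k := by
      refine sup_le ?_ ?_
      · intro y hy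
        exact (IntermediateField.adjoin (KZ M z) (F : Set L)).algebraMap_mem
          (algebraMap M (KZ M z) ⟨y, hy⟩)
      · intro y hy
        exact subset_adjoin (KZ M z) (F : Set L) hy
    rw [hs] at h1
    exact h1 (IntermediateField.mem_top (F := k) (E := L) (x := x))
  have halg : ∀ y ∈ (F : Set L), IsAlgebraic (KZ M z) y := by
    intro y hy
    have h1 : IsIntegral (IntermediateField.adjoin k (Set.range z)) (⟨y, hy⟩ : F) :=
      Algebra.IsIntegral.isIntegral _
    have h2 := h1.map_of_comp_eq (i0 M z) (algebraMap F L) (by ext a; rfl)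
    exact h2.isAlgebraic
  have h2 := adjoin_toSubalgebra_of_isAlgebraic halg
  rw [hE] at h2
  intro x _
  have h3 : x ∈ Algebra.adjoin (KZ M z) (F : Set L) := by
    rw [← h2]
    exact IntermediateField.mem_top
  have h4 : x ∈ Submodule.span (KZ M z) (F : Set L) := by
    have h : Subalgebra.toSubmodule (Algebra.adjoin (KZ M z) (F : Set L)) =
        Submodule.span (KZ M z) (F : Set L) := by
      rw [Algebra.adjoin_eq_span]
      congr 1
      have : (Submonoid.closure (F : Set L)) = F.toSubfield.toSubmonoid := by
        apply le_antisymm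
        · rw [Submonoid.closure_le]
          exact fun z hz => hz
        · exact fun z hz => Submonoid.subset_closure hz
      rw [this]
      rfl
    rw [← h]
    exact h3
  refine Submodule.span_le.2 ?_ h4
  intro y hy
  have h5 := b0.mem_span ⟨y, hy⟩
  have h6 : ∀ w ∈ Submodule.span (IntermediateField.adjoin k (Set.range z)) (Set.range b0),
      ((w : F) : L) ∈ Submodule.span (KZ M z) (Set.range fun i => (b0 i : L)) := by
    intro w hw
    induction hw using Submodule.span_induction with
    | mem w hw =>
      obtain ⟨i, rfl⟩ := hw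
      exact Submodule.subset_span ⟨i, rfl⟩
    | zero => exact Submodule.zero_mem _
    | add a b _ _ ha hb => exact Submodule.add_mem _ ha hb
    | smul c w _ hw =>
      have h7 : ((c • w : F) : L) = i0 M z c • (w : L) := rfl
      rw [h7]
      exact Submodule.smul_mem _ _ hw
  exact h6 _ h5

open scoped IntermediateField.algebraAdjoinAdjoin

theorem main_aux [CharZero k] (hd : M.LinearDisjoint F) (hs : M ⊔ F = ⊤) {f : ℕ}
    {z : Fin f → F} (hz : AlgebraicIndependent k z)
    [FiniteDimensional (IntermediateField.adjoin k (Set.range z)) F] (x : L)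
    (hx : IsIntegral (RZ M z) x) : x ∈ Algebra.adjoin F (M : Set L) := by
  classical
  obtain ⟨s, b0, hb0⟩ := FiniteDimensional.exists_is_basis_integral
    (Algebra.adjoin k (Set.range z)) (IntermediateField.adjoin k (Set.range z)) F
  have hli : LinearIndependent (KZ M z) (fun i => (b0 i : L)) :=
    (LinearIndependent.iff_fractionRing (RZ M z) (KZ M z)).1 (li_RZ hd hz b0.linearIndependent)
  let b1 : Basis s (KZ M z) L := Basis.mk hli (span_KZ hs b0)
  have hb1 : ∀ i, b1 i = algebraMap F L (b0 i) := fun i => by
    rw [Basis.mk_apply]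
    rfl
  have hfin : Module.Finite (KZ M z) L := Module.Finite.of_basis b1
  have hic := intClosed hd hz
  have hint : ∀ i, IsIntegral (RZ M z) (b1 i) := fun i => by
    rw [hb1]
    exact (hb0 i).map_of_comp_eq (j0 M z) (algebraMap F L) (by ext a; rfl)
  have hch : CharZero L := charZero_of_injective_algebraMap (algebraMap k L).injective
  have h1 := integralClosure_le_span_dualBasis (A := RZ M z) (K := KZ M z) (L := L) b1 hint
  have h2 : x ∈ Submodule.span (RZ M z) (Set.range b1.traceDual) := h1 hx
  refine Submodule.span_induction (p := fun w _ => w ∈ Algebra.adjoin F (M : Set L))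
    ?_ ?_ ?_ ?_ h2
  · rintro _ ⟨i, rfl⟩
    rw [dual_eq (i0 M z) (algebraMap F L) (fun a => rfl) b0 b1 hb1 i]
    exact (Algebra.adjoin F (M : Set L)).algebraMap_mem _
  · exact zero_mem _
  · intro a b _ _ ha hb
    exact add_mem ha hb
  · intro r w _ hw
    rw [Subalgebra.smul_def, smul_eq_mul]
    refine mul_mem ?_ hw
    obtain ⟨r, hr⟩ := r
    change r ∈ Algebra.adjoin F (M : Set L)
    induction hr using Algebra.adjoin_induction with
    | mem x hx =>
      obtain ⟨l, rfl⟩ := hx
      exact (Algebra.adjoin F (M : Set L)).algebraMap_mem (z l)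
    | algebraMap x => exact Algebra.subset_adjoin x.2
    | add x y _ _ hx hy => exact add_mem hx hy
    | mul x y _ _ hx hy => exact mul_mem hx hy

end li

/-- **KU-TRI** -/
theorem main : Pool.Agent.Y173.KU.S_TRI := by
  intro k L _ _ _ _ _ M F f z h hz hfin x hx
  exact main_aux h.ld h.sup hz.1 x hx

end Pool.Agent.Y173.KU.Tri
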