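import Pool.Agent.Y173.KU.Kun
import Pool.Agent.Y173.KU.Gau
import Pool.Agent.Y173.KU.Dsc
import Pool.Agent.Y173.KU.Tri
import Pool.Agent.Y173.KU.Rank
import Pool.Agent.Y173.QM.Main

/-! Numerical dimension and pseudo-effectivity of products, and quotients of products with many closed
1-forms relative to the first factor. -/

set_option autoImplicit false
set_option linter.overlappingInstances false
set_option linter.unusedSectionVars false

open FF IntermediateField Pool.Agent.W619.PQ Pool.Agent.W619.PL Pool.Agent.W619.TW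
  Pool.Agent.W603.LV Pool.Agent.W619.Y Pool.Agent.Y173.QA Pool.Agent.Y173.QM

namespace Pool.Agent.Y173.KU

theorem pDSC : S_DSC := Dsc.main Gau.main

section

variable {k L : Type} [Field k] [CharZero k] [IsAlgClosed k] [Field L] [Algebra k L]
  [Algebra.EssFiniteType k L] {M F : IntermediateField k L} [Algebra.EssFiniteType k M]
  [Algebra.EssFiniteType k F] {m f : ℕ}

theorem prod_num (hsup : M ⊔ F = ⊤) (htr : Algebra.trdeg k L = (m + f : ℕ))
    (hm : Algebra.trdeg k M = m) (hf : Algebra.trdeg k F = f) {a b : ℕ}
    (ha : NumLe k M m (fun _ => False) a) (hb : NumLe k F f (fun _ => False) b) :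
    NumLe k L (m + f) (fun _ => False) (a + b) :=
  kun_num Tri.main pDSC Rank.mainR Rank.mainC hsup htr hm hf ha hb

theorem prod_psef (hsup : M ⊔ F = ⊤) (htr : Algebra.trdeg k L = (m + f : ℕ))
    (hm : Algebra.trdeg k M = m) (hf : Algebra.trdeg k F = f)
    (h : IsPsef k L (m + f) (fun _ => False)) :
    IsPsef k M m (fun _ => False) ∧ IsPsef k F f (fun _ => False) :=
  kun_psef Tri.main pDSC Rank.mainR hsup htr hm hf h

end

end Pool.Agent.Y173.KU
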