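import Pool.Agent.Y173.KU.Hor
import Pool.Agent.Y173.QA.MainB
import Pool.Agent.Y173.QA.Phi
import Pool.Agent.W735.PG.DESCJ
import Pool.Agent.W904.PG.UNI

/-! Sections of `m K + j A` on a product have coefficients in the ring generated by the factors. -/

set_option autoImplicit false
set_option linter.overlappingInstances false
set_option linter.unusedSectionVars false

open FF IntermediateField Pool.Agent.W619.PQ Pool.Agent.W619.PL Pool.Agent.W619.TW
  Pool.Agent.W603.LV Pool.Agent.W619.Y Pool.Agent.TH122.AB MvPolynomial Pool.Agent.Y173.QA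

namespace Pool.Agent.Y173.KU

variable {k : Type} [Field k] [CharZero k] {L : Type} [Field L] [Algebra k L]
  {M F : IntermediateField k L}

theorem RR_symm {x : L} (hx : x ∈ RR M F) : x ∈ RR F M := by
  unfold RR at hx
  induction hx using Algebra.adjoin_induction with
  | mem z hz => exact RR.right hz
  | algebraMap c => exact RR.left c.2
  | add y z _ _ hy hz => exact add_mem hy hz
  | mul y z _ _ hy hz => exact mul_mem hy hz

theorem Prd.symm (h : Prd M F) : Prd F M := ⟨h.ld.symm, by rw [sup_comm]; exact h.sup⟩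

theorem Prd.frac (h : Prd M F) (x : L) : ∃ a ∈ RR M F, ∃ b ∈ RR M F, b ≠ 0 ∧ x = a / b := by
  obtain ⟨a, ha, b, hb, hb0, hx⟩ := Pool.Agent.W735.PG.DESCJ.frac h.sup x
  exact ⟨a, RR_symm ha, b, RR_symm hb, hb0, hx⟩

/-- the two transcendence bases together -/
theorem append_basis (hsup : M ⊔ F = ⊤) {m f : ℕ} (htr : Algebra.trdeg k L = (m + f : ℕ))
    {y : Fin m → M} (hy : IsTranscendenceBasis k y) {z : Fin f → F}
    (hz : IsTranscendenceBasis k z) :
    IsTranscendenceBasis k (Fin.append (fun l => (y l : L)) (fun l => (z l : L))) := by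
  classical
  let Z : Fin (m + f) → L := Fin.append (fun l => (y l : L)) (fun l => (z l : L))
  have hM : M ≤ Pool.Agent.W904.PG.acl k (Set.range Z) := by
    refine (Pool.Agent.W904.PG.le_acl_of_basis M y hy).trans
      (Pool.Agent.W904.PG.acl_mono ?_)
    rintro _ ⟨l, rfl⟩
    exact ⟨Fin.castAdd f l, Fin.append_left _ _ l⟩
  have hF : F ≤ Pool.Agent.W904.PG.acl k (Set.range Z) := by
    refine (Pool.Agent.W904.PG.le_acl_of_basis F z hz).trans
      (Pool.Agent.W904.PG.acl_mono ?_)
    rintro _ ⟨l, rfl⟩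
    exact ⟨Fin.natAdd m l, Fin.append_right _ _ l⟩
  have halg : Algebra.IsAlgebraic (Algebra.adjoin k (Set.range Z)) L := by
    constructor
    intro x
    have h1 : M ⊔ F ≤ Pool.Agent.W904.PG.acl k (Set.range Z) := sup_le hM hF
    rw [hsup] at h1
    exact h1 (show x ∈ (⊤ : IntermediateField k L) from trivial)
  refine Algebra.IsAlgebraic.isTranscendenceBasis_of_le_trdeg_of_finite k Z ?_
  rw [htr, Cardinal.mk_fin]

/-- the product from the dimensions -/
theorem prd_of_trdeg [IsAlgClosed k] (hsup : M ⊔ F = ⊤) {m f : ℕ}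
    (htr : Algebra.trdeg k L = (m + f : ℕ)) (hm : Algebra.trdeg k M = m)
    (hf : Algebra.trdeg k F = f) : Prd M F := by
  classical
  refine ⟨?_, hsup⟩
  obtain ⟨s, hs⟩ := exists_isTranscendenceBasis k M
  have h1 := Pool.Agent.W904.PG.T2 (k := k) (P := F) (M := M) (L := L) M.val _ hs
    (Pool.Agent.W904.PG.indep M F m f hm htr hf.le hsup s hs)
  refine IntermediateField.LinearDisjoint.of_basis_left (Module.Basis.ofVectorSpace k M) ?_
  let b := Module.Basis.ofVectorSpace k M
  let Φ := Algebra.TensorProduct.productLeftAlgHom (Algebra.ofId F L) M.val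
  have h2 : LinearIndependent F (fun i => Φ ((Algebra.TensorProduct.basis F b) i)) :=
    (Algebra.TensorProduct.basis F b).linearIndependent.map' Φ.toLinearMap
      (LinearMap.ker_eq_bot.2 h1)
  have h3 : (fun i => Φ ((Algebra.TensorProduct.basis F b) i)) = fun i => ((b i : M) : L) := by
    funext i
    rw [Algebra.TensorProduct.basis_apply]
    simp [Φ, Algebra.ofId_apply]
  rw [h3] at h2
  exact h2

/-- derivations with constant values on a transcendence basis of a subfield preserve it -/
theorem der_mem {m : ℕ} {y : Fin m → M} (hy : IsTranscendenceBasis k y) {D : Derivation k L L}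
    (hD : ∀ l, D (y l : L) ∈ M) (μ : M) : D (μ : L) ∈ M := by
  obtain ⟨E, hE⟩ := exists_duals hy
  have h1 := Pool.Agent.W308.PG.YLOC.expand y E hy hE D μ
  change D (μ : L) = _ at h1
  rw [h1]
  refine sum_mem fun c _ => M.mul_mem ?_ (hD c)
  exact (E c μ).2

/-- **Sections have values in the ring generated by the two factors.** -/
theorem sec_RR [IsAlgClosed k] [Algebra.EssFiniteType k L] [Algebra.EssFiniteType k F]
    (hTRI : S_TRI) (h : Prd M F) {m f : ℕ}
    (htr : Algebra.trdeg k L = (m + f : ℕ)) {y : Fin m → M} (hy : IsTranscendenceBasis k y)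
    {z : Fin f → F} (hz : IsTranscendenceBasis k z)
    {E : Fin (m + f) → Derivation k L L} (hEM : ∀ i (μ : M), E i (μ : L) ∈ RR M F)
    (hEF : ∀ i (β : F), E i (β : L) ∈ RR M F) (S : Finset L) :
    ∃ b0 : L, b0 ≠ 0 ∧ ∀ (N j : ℕ) (ω : (Fin (m + f) → Derivation k L L) → L),
      IsSec k L (m + f) (fun _ => False) S N j ω → b0 ^ j * ω E ∈ RR M F := by
  classical
  choose a ha b hb hb0 hx using h.frac
  refine ⟨∏ s ∈ S, b s, Finset.prod_ne_zero_iff.2 fun s _ => hb0 s, fun N j ω hω => ?_⟩
  have hbs : ∀ s ∈ S, (∏ s ∈ S, b s) * s ∈ RR M F := by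
    intro s hs
    rw [← Finset.mul_prod_erase S b hs]
    have h1 : b s * (∏ x ∈ S.erase s, b x) * s = (∏ x ∈ S.erase s, b x) * a s := by
      conv_lhs => rw [hx s]
      rw [← hx s]
      have h2 : s * b s = a s := by
        conv_lhs => rw [hx s]
        rw [← hx s]
        rw [eq_comm, ← div_eq_iff (hb0 s)]
        exact (hx s).symm
      rw [← h2]
      ring
    rw [h1]
    exact mul_mem (Subalgebra.prod_mem _ fun x _ => hb x) (ha s)
  have hZ := append_basis h.sup htr hy hz
  have hfin : ∀ y : Fin (m + f) → L, IsTranscendenceBasis k y →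
      FiniteDimensional (IntermediateField.adjoin k (Set.range y)) L := fun y hy => fin_adj y hy
  obtain ⟨q0, q1, hq0, hq1, hint⟩ := mult_of_hor hZ (hfin _ hZ)
    (g := (∏ s ∈ S, b s) ^ j * ω E) fun p hp hv hv' P hP => by
      obtain ⟨hdiv, hPM, hPF, hpres⟩ := hor_pres htr hfin h.frac hy hz hZ hp hv hv' hP
      have hdom := hω.2.1 P hdiv (fun h => h) E fun l => hpres (E l) (hEM l) (hEF l)
      rcases hdom with h0 | ⟨s, hs, hs0, hsP⟩
      · rw [h0, mul_zero]; exact P.reg_zero
      · have h1 : P.Reg ((∏ s ∈ S, b s) * s) := RR_reg hPM hPF (hbs s hs)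
        have hb00 : (∏ s ∈ S, b s) ≠ 0 := Finset.prod_ne_zero_iff.2 fun s _ => hb0 s
        have h2 := h1.resolve_left (mul_ne_zero hb00 hs0)
        by_cases hω0 : ω E = 0
        · rw [hω0, mul_zero]; exact P.reg_zero
        · right
          rw [P.ord_mul (pow_ne_zero _ hb00) hω0, P.ord_pow]
          rw [P.ord_mul hb00 hs0] at h2
          have h3 : (0 : ℤ) ≤ j * (P.ord (∏ s ∈ S, b s) + P.ord s) :=
            mul_nonneg (by positivity) h2
          rw [mul_add] at h3
          omega
  -- integral over the polynomials in the `z` over `M`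
  have hle : ∀ x ∈ Algebra.adjoin k (Set.range
      (Fin.append (fun l => (y l : L)) (fun l => (z l : L)))),
      x ∈ Algebra.adjoin M (Set.range fun l => (z l : L)) := by
    intro x hx
    induction hx using Algebra.adjoin_induction with
    | mem x hx =>
      obtain ⟨i, rfl⟩ := hx
      refine Fin.addCases (fun l => ?_) (fun l => ?_) i
      · rw [Fin.append_left]
        exact (Algebra.adjoin M (Set.range fun l => (z l : L))).algebraMap_mem (y l)
      · rw [Fin.append_right]
        exact Algebra.subset_adjoin ⟨l, rfl⟩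
    | algebraMap c =>
      have h1 : algebraMap k L c = algebraMap M L (algebraMap k M c) :=
        IsScalarTower.algebraMap_apply k M L c
      rw [h1]
      exact (Algebra.adjoin M (Set.range fun l => (z l : L))).algebraMap_mem _
    | add y z _ _ hy hz => exact add_mem hy hz
    | mul y z _ _ hy hz => exact mul_mem hy hz
  have hint2 : IsIntegral (Algebra.adjoin M (Set.range fun l => (z l : L)))
      (aeval (fun l => (y l : L)) q0 * aeval (fun l => (z l : L)) q1 *
        ((∏ s ∈ S, b s) ^ j * ω E)) := by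
    obtain ⟨p, hp, hpx⟩ := hint
    let ψ : Algebra.adjoin k (Set.range
      (Fin.append (fun l => (y l : L)) (fun l => (z l : L)))) →+*
      Algebra.adjoin M (Set.range fun l => (z l : L)) :=
      { toFun := fun x => ⟨x, hle x x.2⟩
        map_one' := rfl
        map_mul' := fun _ _ => rfl
        map_zero' := rfl
        map_add' := fun _ _ => rfl }
    refine ⟨p.map ψ, hp.map _, ?_⟩
    rw [Polynomial.eval₂_map]
    exact hpx
  have hRR := hTRI k L M F f z h hz (fin_adj z hz) _ hint2
  have hc : aeval (fun l => (y l : L)) q0 = ((aeval y q0 : M) : L) :=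
    MvPolynomial.aeval_algebraMap_apply L y q0
  have hd : aeval (fun l => (z l : L)) q1 = ((aeval z q1 : F) : L) :=
    MvPolynomial.aeval_algebraMap_apply L z q1
  have hc0 : (aeval y q0 : M) ≠ 0 := fun h0 => hq0 ((injective_iff_map_eq_zero _).1 hy.1 _ h0)
  have hd0 : (aeval z q1 : F) ≠ 0 := fun h0 => hq1 ((injective_iff_map_eq_zero _).1 hz.1 _ h0)
  have hcL : ((aeval y q0 : M) : L) ≠ 0 := fun h0 => hc0 (Subtype.ext h0)
  have hdL : ((aeval z q1 : F) : L) ≠ 0 := fun h0 => hd0 (Subtype.ext h0)
  rw [hc, hd] at hRR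
  have h1 : (∏ s ∈ S, b s) ^ j * ω E = (((aeval y q0)⁻¹ : M) : L) * (((aeval z q1)⁻¹ : F) : L) *
      (((aeval y q0 : M) : L) * ((aeval z q1 : F) : L) * ((∏ s ∈ S, b s) ^ j * ω E)) := by
    push_cast
    field_simp
  rw [h1]
  exact mul_mem (mul_mem (RR.left ((aeval y q0)⁻¹ : M).2) (RR.right ((aeval z q1)⁻¹ : F).2)) hRR

end Pool.Agent.Y173.KU
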